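import Mathlib

/-!
Identical inclusions of semigroups: goodness, locality and the finite basis lemma.
-/

set_option autoImplicit false

namespace Pool.Agent.Lib.MP_226ef1_lc

universe u v w

/-- Nonempty words over a countably infinite alphabet. -/
abbrev Word : Type := FreeSemigroup ℕ

/-- `S` satisfies the identical inclusion `p ∈ V`: for every homomorphism `φ` of the free
semigroup into `S` there is `v` in `V` with `φ p = φ v`. -/
def Satisfies (S : Type u) [Semigroup S] (p : Word) (V : Set Word) : Prop :=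
  ∀ φ : Word →ₙ* S, ∃ v ∈ V, φ p = φ v

/-- `T` lies in the inclusive variety generated by the family `S`: it satisfies every identical
inclusion that all members of the family satisfy. -/
def InGenerated {ι : Type w} (S : ι → Type v) [∀ i, Semigroup (S i)] (T : Type u) [Semigroup T] :
    Prop :=
  ∀ (p : Word) (V : Set Word), (∀ i, Satisfies (S i) p V) → Satisfies T p V

/-- Every instance over the alphabet `α` in `T` is witnessed by a member of the family. -/
def GoodOn {ι : Type w} (S : ι → Type v) [∀ i, Semigroup (S i)] (α : Type*) (T : Type u)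
    [Semigroup T] : Prop :=
  ∀ (φ : FreeSemigroup α →ₙ* T) (p : FreeSemigroup α),
    ∃ (i : ι) (ψ : FreeSemigroup α →ₙ* S i), ∀ q, ψ q = ψ p → φ q = φ p

section
variable {ι : Type w} (S : ι → Type v) [∀ i, Semigroup (S i)]

theorem inGenerated_iff (T : Type u) [Semigroup T] : InGenerated S T ↔ GoodOn S ℕ T := by
  constructor
  · intro h φ p
    by_contra hcon
    push Not at hcon
    obtain ⟨v, hv, hv'⟩ := h p {q | φ q ≠ φ p} (by
      intro i ψ
      obtain ⟨q, hq, hq'⟩ := hcon i ψ
      exact ⟨q, hq', hq.symm⟩) φ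
    exact hv hv'.symm
  · intro h p V hV φ
    obtain ⟨i, ψ, hψ⟩ := h φ p
    obtain ⟨v, hv, hv'⟩ := hV i ψ
    exact ⟨v, hv, (hψ v hv'.symm).symm⟩

/-- Homomorphisms out of a free semigroup are determined on generators. -/
theorem comp_map_eq {α β : Type*} {T : Type*} [Semigroup T] (f : α → β) (φ : FreeSemigroup β →ₙ* T)
    (q : FreeSemigroup α) :
    φ (FreeSemigroup.map f q) = FreeSemigroup.lift (fun a => φ (FreeSemigroup.of (f a))) q := by
  induction q using FreeSemigroup.recOnMul with
  | ih1 x => simp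
  | ih2 x y hx hy => rw [map_mul, map_mul, map_mul, hx, hy]

theorem lift_of_eq {α : Type*} {T : Type*} [Semigroup T] (φ : FreeSemigroup α →ₙ* T)
    (q : FreeSemigroup α) : FreeSemigroup.lift (fun a => φ (FreeSemigroup.of a)) q = φ q := by
  induction q using FreeSemigroup.recOnMul with
  | ih1 x => simp
  | ih2 x y hx hy => rw [map_mul, map_mul, hx, hy]

variable {S} in
theorem GoodOn.of_injective {α β : Type*} {T : Type u} [Semigroup T] (f : α → β)
    (hf : Function.Injective f) (h : GoodOn S β T) : GoodOn S α T := by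
  intro φ p
  have hne : Nonempty α := ⟨p.head⟩
  obtain ⟨i, ψ, hψ⟩ := h (FreeSemigroup.lift fun b => φ (FreeSemigroup.of (Function.invFun f b)))
    (FreeSemigroup.map f p)
  refine ⟨i, FreeSemigroup.lift (fun a => ψ (FreeSemigroup.of (f a))), fun q hq => ?_⟩
  rw [← comp_map_eq, ← comp_map_eq] at hq
  have := hψ _ hq
  rw [comp_map_eq, comp_map_eq] at this
  simpa [Function.leftInverse_invFun hf _, lift_of_eq] using this

variable {S} in
theorem GoodOn.of_card {α : Type*} [Finite α] {n : ℕ} {T : Type u} [Semigroup T]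
    (h : GoodOn S (Fin n) T) (hc : Nat.card α ≤ n) : GoodOn S α T :=
  h.of_injective (fun a => Fin.castLE hc (Finite.equivFin α a))
    ((Fin.castLE_injective hc).comp (Finite.equivFin α).injective)

variable {S} in
/-- An identity over `α` that holds in the family holds in `T`. -/
theorem GoodOn.eq {α : Type*} {T : Type u} [Semigroup T]
    (h : GoodOn S α T) (p q : FreeSemigroup α)
    (hpq : ∀ i (ψ : FreeSemigroup α →ₙ* S i), ψ q = ψ p) (φ : FreeSemigroup α →ₙ* T) :
    φ q = φ p := by
  obtain ⟨i, ψ, hψ⟩ := h φ p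
  exact hψ q (hpq i ψ)

/-- The finite basis lemma: for a finite family of finite semigroups, goodness over an alphabet
of `n` letters is a consequence of finitely many elementary identical inclusions which hold in
the generated inclusive variety. -/
theorem exists_finite_basis [Finite ι] [∀ i, Finite (S i)] (n : ℕ) (hn : 0 < n) :
    ∃ B : Set (Word × Finset Word), B.Finite ∧
      (∀ b ∈ B, ∀ i, Satisfies (S i) b.1 (b.2 : Set Word)) ∧
      ∀ (T : Type u) [Semigroup T], (∀ b ∈ B, Satisfies T b.1 (b.2 : Set Word)) →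
        GoodOn S (Fin n) T := by
  classical
  -- evaluation at all assignments
  let P : Type _ := (a : Σ i, (Fin n → S i)) → S a.1
  let ev : FreeSemigroup (Fin n) → P := fun q a => FreeSemigroup.lift a.2 q
  have hfinP : Finite P := by infer_instance
  have hev_mul : ∀ q q' r r', ev q = ev r → ev q' = ev r' → ev (q * q') = ev (r * r') := by
    intro q q' r r' h h'
    funext a
    have h1 := congrFun h a
    have h2 := congrFun h' a
    simp only [ev] at h1 h2 ⊢
    rw [map_mul, map_mul, h1, h2]
  -- representatives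
  let rep : FreeSemigroup (Fin n) → FreeSemigroup (Fin n) := fun q =>
    Classical.choose (⟨q, rfl⟩ : ∃ r, ev r = ev q)
  have hrep : ∀ q, ev (rep q) = ev q := fun q =>
    Classical.choose_spec (⟨q, rfl⟩ : ∃ r, ev r = ev q)
  have hrep_eq : ∀ q r, ev q = ev r → rep q = rep r := by
    intro q r h
    simp only [rep]
    congr 1
    funext x
    rw [h]
  have hRfin : (Set.range rep).Finite := by
    have : Set.range rep ⊆ Set.range (fun x : P =>
        if h : ∃ r, ev r = x then Classical.choose h else rep (FreeSemigroup.of ⟨0, hn⟩)) := by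
      rintro _ ⟨q, rfl⟩
      refine ⟨ev q, ?_⟩
      have hq : ∃ r, ev r = ev q := ⟨q, rfl⟩
      exact dif_pos hq
    exact (Set.finite_range _).subset this
  let R : Finset (FreeSemigroup (Fin n)) := hRfin.toFinset
  have hR : ∀ q, rep q ∈ R := fun q => by simp [R]
  let m : FreeSemigroup (Fin n) → Word := FreeSemigroup.map Fin.val
  -- translation between the two alphabets
  have hsat : ∀ (T : Type u) [Semigroup T] (p : FreeSemigroup (Fin n))
      (V : Finset (FreeSemigroup (Fin n))), Satisfies T (m p) ((V.image m : Finset Word) : Set Word) →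
      ∀ φ : FreeSemigroup (Fin n) →ₙ* T, ∃ v ∈ V, φ p = φ v := by
    intro T _ p V h φ
    obtain ⟨v, hv, hv'⟩ := h (FreeSemigroup.lift fun j =>
      φ (FreeSemigroup.of (if h : j < n then ⟨j, h⟩ else ⟨0, hn⟩)))
    simp only [Finset.coe_image, Set.mem_image, Finset.mem_coe] at hv
    obtain ⟨r, hr, rfl⟩ := hv
    refine ⟨r, hr, ?_⟩
    rw [comp_map_eq, comp_map_eq] at hv'
    simpa [lift_of_eq] using hv'
  have hsat' : ∀ i (p : FreeSemigroup (Fin n)) (V : Finset (FreeSemigroup (Fin n))),
      (∀ φ : FreeSemigroup (Fin n) →ₙ* S i, ∃ v ∈ V, φ p = φ v) →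
      Satisfies (S i) (m p) ((V.image m : Finset Word) : Set Word) := by
    intro i p V h φ
    obtain ⟨v, hv, hv'⟩ := h (FreeSemigroup.lift fun a => φ (FreeSemigroup.of (a : ℕ)))
    refine ⟨m v, by simpa using ⟨v, hv, rfl⟩, ?_⟩
    simp only [m]
    rw [comp_map_eq, comp_map_eq]
    exact hv'
  let B1 : Set (Word × Finset Word) :=
    Set.range (fun a : Fin n => (m (FreeSemigroup.of a), ({rep (FreeSemigroup.of a)} : Finset _).image m))
  let B2 : Set (Word × Finset Word) :=
    (fun x : Fin n × FreeSemigroup (Fin n) => (m (FreeSemigroup.of x.1 * x.2),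
      ({rep (FreeSemigroup.of x.1 * x.2)} : Finset _).image m)) '' {x | x.2 ∈ R}
  let B3 : Set (Word × Finset Word) :=
    (fun x : FreeSemigroup (Fin n) × Finset (FreeSemigroup (Fin n)) => (m x.1, x.2.image m)) ''
      {x | x.1 ∈ R ∧ x.2 ⊆ R ∧
        ∀ i (φ : FreeSemigroup (Fin n) →ₙ* S i), ∃ v ∈ x.2, φ x.1 = φ v}
  have hhom : ∀ i (ψ : FreeSemigroup (Fin n) →ₙ* S i) q r, ev q = ev r → ψ q = ψ r := by
    intro i ψ q r h
    have := congrFun h ⟨i, fun a => ψ (FreeSemigroup.of a)⟩
    simpa [ev, lift_of_eq] using this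
  refine ⟨B1 ∪ B2 ∪ B3, ?_, ?_, ?_⟩
  · refine ((Set.finite_range _).union (Set.Finite.image _ ?_)).union (Set.Finite.image _ ?_)
    · have : {x : Fin n × FreeSemigroup (Fin n) | x.2 ∈ R} =
          ((Finset.univ : Finset (Fin n)) ×ˢ R : Finset _) := by
        ext x; simp
      rw [this]
      exact Finset.finite_toSet _
    · refine (Finset.finite_toSet (R ×ˢ R.powerset)).subset ?_
      rintro ⟨x, y⟩ ⟨h1, h2, -⟩
      simp only [Finset.coe_product, Set.mem_prod, Finset.mem_coe, Finset.mem_powerset]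
      exact ⟨h1, h2⟩
  · rintro b ((⟨a, rfl⟩ | ⟨x, hx, rfl⟩) | ⟨x, hx, rfl⟩) i
    · exact hsat' i _ _ fun φ => ⟨_, Finset.mem_singleton_self _, (hhom i φ _ _ (hrep _)).symm⟩
    · exact hsat' i _ _ fun φ => ⟨_, Finset.mem_singleton_self _, (hhom i φ _ _ (hrep _)).symm⟩
    · exact hsat' i _ _ (hx.2.2 i)
  · intro T _ hT φ p
    have hred : ∀ q, φ (rep q) = φ q := by
      intro q
      induction q using FreeSemigroup.recOnMul with
      | ih1 a =>
        obtain ⟨v, hv, hv'⟩ := hsat T _ _ (hT _ (Or.inl (Or.inl ⟨a, rfl⟩))) φ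
        rw [Finset.mem_singleton] at hv
        rw [hv', hv]
      | ih2 a y ha hy =>
        obtain ⟨v, hv, hv'⟩ := hsat T _ _ (hT _ (Or.inl (Or.inr ⟨(a, rep y), hR y, rfl⟩))) φ
        rw [Finset.mem_singleton] at hv
        simp only at hv hv'
        rw [map_mul, ← hy, ← map_mul, hv', hv]
        congr 1
        exact hrep_eq _ _ (hev_mul _ _ _ _ rfl (hrep y).symm)
    by_contra hcon
    push Not at hcon
    let V : Finset (FreeSemigroup (Fin n)) := R.filter fun r => φ r ≠ φ p
    have hmem : (m (rep p), V.image m) ∈ B1 ∪ B2 ∪ B3 := by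
      refine Or.inr ⟨(rep p, V), ⟨hR p, Finset.filter_subset _ _, ?_⟩, rfl⟩
      intro i ψ
      obtain ⟨q, hq, hq'⟩ := hcon i ψ
      refine ⟨rep q, Finset.mem_filter.2 ⟨hR q, ?_⟩, ?_⟩
      · rw [hred]; exact hq'
      · simp only
        rw [hhom i ψ _ _ (hrep p), hhom i ψ _ _ (hrep q), hq]
    obtain ⟨v, hv, hv'⟩ := hsat T _ _ (hT _ hmem) φ
    have := (Finset.mem_filter.1 hv).2
    rw [hred] at hv'
    exact this hv'.symm

/-- Locality implies finite axiomatisability. -/
theorem finite_axiomatisable_of_local [Finite ι] [∀ i, Finite (S i)] (n : ℕ) (hn : 0 < n)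
    (h : ∀ (T : Type u) [Semigroup T], GoodOn S (Fin n) T → GoodOn S ℕ T) :
    ∃ B : Set (Word × Finset Word), B.Finite ∧ ∀ (T : Type u) [Semigroup T],
      InGenerated S T ↔ ∀ b ∈ B, Satisfies T b.1 (b.2 : Set Word) := by
  obtain ⟨B, hB, hB1, hB2⟩ := exists_finite_basis.{u} S n hn
  refine ⟨B, hB, fun T _ => ⟨fun hT b hb => hT _ _ (hB1 b hb), fun hT => ?_⟩⟩
  rw [inGenerated_iff]
  exact h T (hB2 T hT)

end

end Pool.Agent.Lib.MP_226ef1_lc
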