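import Pool.Agent.Lib.MP_226ef1_lc.Basic

/-!
Locality of the inclusive varieties generated by finite simple semigroups.
-/

set_option autoImplicit false

namespace Pool.Agent.Lib.MP_226ef1_lc

universe u v w

/-- `pw z k = z ^ (k + 1)` in a semigroup. -/
def pw {S : Type*} [Semigroup S] (z : S) : ℕ → S
  | 0 => z
  | k + 1 => pw z k * z

section pw
variable {S : Type*} [Semigroup S]

theorem pw_zero (z : S) : pw z 0 = z := rfl

theorem pw_succ (z : S) (k : ℕ) : pw z (k + 1) = pw z k * z := rfl

theorem pw_succ' (z : S) (k : ℕ) : pw z (k + 1) = z * pw z k := by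
  induction k with
  | zero => rfl
  | succ k ih => rw [pw_succ, ih, mul_assoc, ← pw_succ, ih]

theorem pw_add (z : S) (a b : ℕ) : pw z a * pw z b = pw z (a + b + 1) := by
  induction b with
  | zero => rfl
  | succ b ih => rw [pw_succ, ← mul_assoc, ih, ← pw_succ]; rfl

theorem pw_pw (z : S) (a b : ℕ) : pw (pw z a) b = pw z ((a + 1) * (b + 1) - 1) := by
  induction b with
  | zero => simp [pw_zero]
  | succ b ih =>
    rw [pw_succ, ih, pw_add]
    congr 1
    have : (a + 1) * (b + 1 + 1) = (a + 1) * (b + 1) + (a + 1) := by ring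
    have h1 : 1 ≤ (a + 1) * (b + 1) := Nat.one_le_iff_ne_zero.2 (by positivity)
    omega

theorem pw_of_idem {e : S} (h : e * e = e) (k : ℕ) : pw e k = e := by
  induction k with
  | zero => rfl
  | succ k ih => rw [pw_succ, ih, h]

theorem map_pw {T : Type*} [Semigroup T] (φ : S →ₙ* T) (z : S) (k : ℕ) :
    φ (pw z k) = pw (φ z) k := by
  induction k with
  | zero => rfl
  | succ k ih => rw [pw_succ, pw_succ, map_mul, ih]

theorem idem_of_dvd {z : S} {m m' : ℕ} (h : pw z m * pw z m = pw z m) (hd : m + 1 ∣ m' + 1) :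
    pw z m' = pw z m := by
  obtain ⟨c, hc⟩ := hd
  have hc0 : c ≠ 0 := by rintro rfl; simp at hc
  obtain ⟨b, rfl⟩ := Nat.exists_eq_succ_of_ne_zero hc0
  have := pw_pw z m b
  rw [pw_of_idem h b] at this
  rw [this]
  congr 1
  have h2 : m' + 1 = (m + 1) * (b + 1) := hc
  omega

theorem exists_idem [Finite S] (z : S) : ∃ m, pw z m * pw z m = pw z m := by
  obtain ⟨a, b, hab, h⟩ := Finite.exists_ne_map_eq_of_infinite (fun k : ℕ => pw z k)
  wlog hlt : a < b generalizing a b
  · exact this b a hab.symm h.symm (lt_of_le_of_ne (not_lt.1 hlt) hab.symm)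
  obtain ⟨p, rfl⟩ : ∃ p, b = a + (p + 1) := ⟨b - a - 1, by omega⟩
  -- z^(c) = z^(c+p+1) for all exponents c ≥ a
  have h1 : ∀ c, a ≤ c → pw z c = pw z (c + (p + 1)) := by
    intro c hc
    obtain ⟨d, rfl⟩ := Nat.exists_eq_add_of_le hc
    induction d with
    | zero => simpa using h
    | succ d ih =>
      have e1 : a + (d + 1) = (a + d) + 1 := by ring
      have e2 : a + (d + 1) + (p + 1) = (a + d + (p + 1)) + 1 := by ring
      rw [e2, e1, pw_succ, ih (by omega), ← pw_succ]
  have h2 : ∀ c j, a ≤ c → pw z c = pw z (c + j * (p + 1)) := by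
    intro c j hc
    induction j with
    | zero => simp
    | succ j ih =>
      rw [ih, h1 _ (by omega)]
      congr 1
      ring
  refine ⟨(a + 1) * (p + 1) - 1, ?_⟩
  rw [pw_add]
  have h3 : a + 1 ≤ (a + 1) * (p + 1) := Nat.le_mul_of_pos_right _ (by omega)
  rw [h2 ((a + 1) * (p + 1) - 1) (a + 1) (by omega)]
  congr 1

end pw

/-- A uniform exponent making all powers in a finite family of finite semigroups idempotent. -/
theorem exists_uniform_idem {ι : Type w} (S : ι → Type v) [∀ i, Semigroup (S i)] [Finite ι]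
    [∀ i, Finite (S i)] : ∃ m, ∀ i (z : S i), pw z m * pw z m = pw z m := by
  classical
  choose f hf using fun a : Σ i, S i => exists_idem a.2
  have := Fintype.ofFinite (Σ i, S i)
  refine ⟨∏ a, (f a + 1) - 1, fun i z => ?_⟩
  have h1 : 1 ≤ ∏ a, (f a + 1) := Nat.one_le_iff_ne_zero.2 (by
    rw [Finset.prod_ne_zero_iff]; intro a _; omega)
  have hd : f ⟨i, z⟩ + 1 ∣ (∏ a, (f a + 1) - 1) + 1 := by
    rw [Nat.sub_add_cancel h1]
    exact Finset.dvd_prod_of_mem (fun a => f a + 1) (Finset.mem_univ (⟨i, z⟩ : Σ i, S i))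
  rw [idem_of_dvd (hf ⟨i, z⟩) hd]
  exact hf ⟨i, z⟩

section simple
variable {S : Type*} [Semigroup S]

theorem iter_eq {x p g : S} (h : x = p * x * g) (k : ℕ) : x = pw p k * x * pw g k := by
  induction k with
  | zero => exact h
  | succ k ih =>
    conv_lhs => rw [ih, h]
    rw [pw_succ, pw_succ' g]
    simp only [mul_assoc]

theorem pw_sandwich (x y : S) (k : ℕ) : ∃ y', pw (x * y * x) k = x * y' * x := by
  induction k with
  | zero => exact ⟨y, rfl⟩
  | succ k ih =>
    obtain ⟨y', hy'⟩ := ih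
    exact ⟨y' * x * x * y, by rw [pw_succ, hy']; simp only [mul_assoc]⟩

variable {m : ℕ} (hm : ∀ z : S, pw z m * pw z m = pw z m)
  (hS : ∀ a b : S, ∃ x y : S, x * a * y = b)
include hm hS

theorem simple_right (x y : S) : ∃ r, x = x * y * x * r := by
  obtain ⟨p, q, hpq⟩ := hS (x * y * x) x
  have h : x = p * x * (y * x * q) := by simpa [mul_assoc] using hpq.symm
  have h1 := iter_eq h m
  have h2 : x * pw (y * x * q) m = x := by
    calc x * pw (y * x * q) m = pw p m * x * pw (y * x * q) m * pw (y * x * q) m :=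
          congrArg (· * pw (y * x * q) m) h1
      _ = pw p m * x * pw (y * x * q) m := by rw [mul_assoc, hm]
      _ = x := h1.symm
  refine ⟨q * pw (y * x * q) (2 * m), ?_⟩
  have h3 : x * (y * x * q * pw (y * x * q) (2 * m)) = x := by
    rw [← pw_succ']
    have : pw (y * x * q) (2 * m + 1) = pw (y * x * q) m * pw (y * x * q) m := by
      rw [pw_add]; congr 1; ring
    rw [this, ← mul_assoc, h2, h2]
  calc x = x * (y * x * q * pw (y * x * q) (2 * m)) := h3.symm
    _ = x * y * x * (q * pw (y * x * q) (2 * m)) := by simp only [mul_assoc]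

theorem simple_left (x y : S) : ∃ r, x = r * (x * y * x) := by
  obtain ⟨p, q, hpq⟩ := hS (x * y * x) x
  have h : x = (p * x * y) * x * q := by simpa [mul_assoc] using hpq.symm
  have h1 := iter_eq h m
  have h2 : pw (p * x * y) m * x = x := by
    calc pw (p * x * y) m * x = pw (p * x * y) m * (pw (p * x * y) m * x * pw q m) :=
          congrArg (pw (p * x * y) m * ·) h1
      _ = pw (p * x * y) m * x * pw q m := by rw [← mul_assoc, ← mul_assoc, hm]
      _ = x := h1.symm
  refine ⟨pw (p * x * y) (2 * m) * p, ?_⟩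
  have h3 : pw (p * x * y) (2 * m) * (p * x * y) * x = x := by
    rw [← pw_succ]
    have : pw (p * x * y) (2 * m + 1) = pw (p * x * y) m * pw (p * x * y) m := by
      rw [pw_add]; congr 1; ring
    rw [this, mul_assoc, h2, h2]
  calc x = pw (p * x * y) (2 * m) * (p * x * y) * x := h3.symm
    _ = pw (p * x * y) (2 * m) * p * (x * y * x) := by simp only [mul_assoc]

theorem simple_id_left (x y : S) : pw (x * y * x) m * x = x := by
  obtain ⟨y', hy'⟩ := pw_sandwich x y m
  obtain ⟨r, hr⟩ := simple_right hm hS x y'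
  rw [← hy'] at hr
  calc pw (x * y * x) m * x = pw (x * y * x) m * (pw (x * y * x) m * r) :=
        congrArg (pw (x * y * x) m * ·) hr
    _ = pw (x * y * x) m * r := by rw [← mul_assoc, hm]
    _ = x := hr.symm

theorem simple_id_right (x y : S) : x * pw (x * y * x) m = x := by
  obtain ⟨y', hy'⟩ := pw_sandwich x y m
  obtain ⟨r, hr⟩ := simple_left hm hS x y'
  rw [← hy'] at hr
  calc x * pw (x * y * x) m = r * pw (x * y * x) m * pw (x * y * x) m :=
        congrArg (· * pw (x * y * x) m) hr
    _ = r * pw (x * y * x) m := by rw [mul_assoc, hm]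
    _ = x := hr.symm

end simple

/-! ### Structure of semigroups satisfying the identities -/

/-- The identities of simple semigroups with exponent `m + 1`. -/
structure SimpleIds (T : Type*) [Semigroup T] (m : ℕ) : Prop where
  left : ∀ x y : T, pw (x * y * x) m * x = x
  right : ∀ x y : T, x * pw (x * y * x) m = x

section ids
variable {T : Type*} [Semigroup T] {m : ℕ} (hT : SimpleIds T m)
include hT

theorem SimpleIds.exists_right (a c : T) : ∃ d, a * c * d = a := by
  have h := hT.left a c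
  have : ∃ V, pw (a * c * a) m * a = (a * c * a) * V := by
    cases m with
    | zero => exact ⟨a, rfl⟩
    | succ k => exact ⟨pw (a * c * a) k * a, by rw [pw_succ', mul_assoc]⟩
  obtain ⟨V, hV⟩ := this
  refine ⟨a * V, ?_⟩
  rw [h] at hV
  conv_rhs => rw [hV]
  simp only [mul_assoc]

theorem SimpleIds.exists_left (a c : T) : ∃ d, d * (c * a) = a := by
  have h := hT.right a c
  have : ∃ V, a * pw (a * c * a) m = V * (a * c * a) := by
    cases m with
    | zero => exact ⟨a, rfl⟩
    | succ k => exact ⟨a * pw (a * c * a) k, by rw [pw_succ]; simp only [mul_assoc]⟩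
  obtain ⟨V, hV⟩ := this
  refine ⟨V * a, ?_⟩
  rw [h] at hV
  conv_rhs => rw [hV]
  simp only [mul_assoc]

end ids

/-- Right divisibility (`b` lies in `a T`). -/
def Rr {T : Type*} [Semigroup T] (a b : T) : Prop := ∃ c, a * c = b

/-- Left divisibility (`b` lies in `T a`). -/
def Ll {T : Type*} [Semigroup T] (a b : T) : Prop := ∃ c, c * a = b

section ids2
variable {T : Type*} [Semigroup T] {m : ℕ} (hT : SimpleIds T m)

theorem Rr.trans {a b c : T} (h : Rr a b) (h' : Rr b c) : Rr a c := by
  obtain ⟨x, rfl⟩ := h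
  obtain ⟨y, rfl⟩ := h'
  exact ⟨x * y, by rw [mul_assoc]⟩

theorem Ll.trans {a b c : T} (h : Ll a b) (h' : Ll b c) : Ll a c := by
  obtain ⟨x, rfl⟩ := h
  obtain ⟨y, rfl⟩ := h'
  exact ⟨y * x, by rw [mul_assoc]⟩

include hT in
theorem SimpleIds.rr_symm {a b : T} (h : Rr a b) : Rr b a := by
  obtain ⟨x, rfl⟩ := h
  exact hT.exists_right a x

include hT in
theorem SimpleIds.ll_symm {a b : T} (h : Ll a b) : Ll b a := by
  obtain ⟨x, rfl⟩ := h
  exact hT.exists_left a x

include hT in
theorem SimpleIds.rr_refl (a : T) : Rr a a :=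
  Rr.trans ⟨a, rfl⟩ (hT.exists_right a a)

include hT in
theorem SimpleIds.ll_refl (a : T) : Ll a a :=
  Ll.trans ⟨a, rfl⟩ (hT.exists_left a a)

include hT in
theorem SimpleIds.rr_mul (a b v : T) : Rr (a * b) v ↔ Rr a v :=
  ⟨fun h => Rr.trans ⟨b, rfl⟩ h, fun h => (hT.rr_symm ⟨b, rfl⟩).trans h⟩

include hT in
theorem SimpleIds.ll_mul (a b v : T) : Ll (a * b) v ↔ Ll b v :=
  ⟨fun h => Ll.trans ⟨a, rfl⟩ h, fun h => (hT.ll_symm ⟨a, rfl⟩).trans h⟩

/-- The congruence `a ≈ b` iff `c a d = c b d` for all `c, d`. -/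
def mid (T : Type*) [Semigroup T] : Setoid T where
  r a b := ∀ c d : T, c * a * d = c * b * d
  iseqv := ⟨fun _ _ _ => rfl, fun h c d => (h c d).symm, fun h h' c d => (h c d).trans (h' c d)⟩

theorem mid_mul {a a' b b' : T} (h : mid T a a') (h' : mid T b b') : mid T (a * b) (a' * b') := by
  intro c d
  have h1 := h c (b * d)
  have h2 := h' (c * a') d
  calc c * (a * b) * d = c * a * (b * d) := by simp only [mul_assoc]
    _ = c * a' * (b * d) := h1
    _ = c * a' * b * d := by simp only [mul_assoc]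
    _ = c * a' * b' * d := h2
    _ = c * (a' * b') * d := by simp only [mul_assoc]

include hT in
theorem SimpleIds.eq_of {t t' : T} (h : mid T t t') (hr : Rr t t') (hl : Ll t t') : t = t' := by
  have h1 := hT.left t t
  have h2 := hT.right t t
  obtain ⟨c, hc⟩ := hr
  obtain ⟨d, hd⟩ := hl
  have h3 : pw (t * t * t) m * t' = t' := by rw [← hc, ← mul_assoc, h1]
  have h4 : t' * pw (t * t * t) m = t' := by rw [← hd, mul_assoc, h2]
  have h5 := h (pw (t * t * t) m) (pw (t * t * t) m)
  rw [h1, h2, h3, h4] at h5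
  exact h5

end ids2

/-! ### Boundedness of the number of classes -/

section bounded
variable {ι : Type w} {S : ι → Type v} [∀ i, Semigroup (S i)] {T : Type u} [Semigroup T] {m M n : ℕ}

theorem SimpleIds.of_good (h : GoodOn S (Fin 2) T)
    (hS : ∀ i, SimpleIds (S i) m) : SimpleIds T m := by
  have key : ∀ (x y : T), ∃ φ : FreeSemigroup (Fin 2) →ₙ* T, φ (FreeSemigroup.of 0) = x ∧
      φ (FreeSemigroup.of 1) = y := fun x y =>
    ⟨FreeSemigroup.lift ![x, y], by simp, by simp⟩
  constructor
  · intro x y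
    obtain ⟨φ, hx, hy⟩ := key x y
    have := h.eq (FreeSemigroup.of 0)
      (pw (FreeSemigroup.of 0 * FreeSemigroup.of 1 * FreeSemigroup.of 0) m * FreeSemigroup.of 0)
      (fun i ψ => by rw [map_mul, map_pw, map_mul, map_mul]; exact (hS i).left _ _) φ
    rwa [map_mul, map_pw, map_mul, map_mul, hx, hy] at this
  · intro x y
    obtain ⟨φ, hx, hy⟩ := key x y
    have := h.eq (FreeSemigroup.of 0)
      (FreeSemigroup.of 0 * pw (FreeSemigroup.of 0 * FreeSemigroup.of 1 * FreeSemigroup.of 0) m)
      (fun i ψ => by rw [map_mul, map_pw, map_mul, map_mul]; exact (hS i).right _ _) φ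
    rwa [map_mul, map_pw, map_mul, map_mul, hx, hy] at this

theorem not_many_classes [∀ i, Finite (S i)] (hS : ∀ i, SimpleIds (S i) m)
    (hM : ∀ i, Nat.card (S i) ≤ M) (hT : SimpleIds T m)
    (h : GoodOn S (Fin (M + 1) ⊕ ((Fin (M + 1) × Fin (M + 1)) ⊕ (Fin (M + 1) × Fin (M + 1)))) T)
    (t : Fin (M + 1) → T) : ∃ k l, k ≠ l ∧ mid T (t k) (t l) := by
  classical
  by_contra hcon
  push Not at hcon
  have hex : ∀ k l : Fin (M + 1), ∃ c d : T, k ≠ l → c * t k * d ≠ c * t l * d := by
    intro k l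
    by_cases hkl : k = l
    · exact ⟨t k, t k, fun h => absurd hkl h⟩
    · have := hcon k l hkl
      have h2 : ∃ c d : T, c * t k * d ≠ c * t l * d := by
        by_contra h3
        push Not at h3
        exact this h3
      obtain ⟨c, d, hcd⟩ := h2
      exact ⟨c, d, fun _ => hcd⟩
  choose c d hcd using hex
  let val : Fin (M + 1) ⊕ ((Fin (M + 1) × Fin (M + 1)) ⊕ (Fin (M + 1) × Fin (M + 1))) → T
    | Sum.inl k => t k
    | Sum.inr (Sum.inl x) => c x.1 x.2
    | Sum.inr (Sum.inr x) => d x.1 x.2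
  let φ := FreeSemigroup.lift val
  obtain ⟨i, ψ, hψ⟩ := h φ (FreeSemigroup.of (Sum.inl 0))
  -- pigeonhole
  have hpig : ∃ k l : Fin (M + 1), k ≠ l ∧
      ψ (FreeSemigroup.of (Sum.inl k)) = ψ (FreeSemigroup.of (Sum.inl l)) := by
    have := Fintype.ofFinite (S i)
    have hc : Fintype.card (S i) < Fintype.card (Fin (M + 1)) := by
      have := hM i
      rw [Nat.card_eq_fintype_card] at this
      simpa using Nat.lt_succ_of_le this
    obtain ⟨k, l, hkl, he⟩ := Fintype.exists_ne_map_eq_of_card_lt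
      (fun k => ψ (FreeSemigroup.of (Sum.inl k))) hc
    exact ⟨k, l, hkl, he⟩
  obtain ⟨k, l, hkl, he⟩ := hpig
  -- abbreviations for words
  let p : FreeSemigroup (Fin (M + 1) ⊕ ((Fin (M + 1) × Fin (M + 1)) ⊕
    (Fin (M + 1) × Fin (M + 1)))) := FreeSemigroup.of (Sum.inl 0)
  let C := FreeSemigroup.of (α := Fin (M + 1) ⊕ ((Fin (M + 1) × Fin (M + 1)) ⊕
    (Fin (M + 1) × Fin (M + 1)))) (Sum.inr (Sum.inl (k, l)))
  let D := FreeSemigroup.of (α := Fin (M + 1) ⊕ ((Fin (M + 1) × Fin (M + 1)) ⊕
    (Fin (M + 1) × Fin (M + 1)))) (Sum.inr (Sum.inr (k, l)))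
  let X : Fin (M + 1) → FreeSemigroup (Fin (M + 1) ⊕ ((Fin (M + 1) × Fin (M + 1)) ⊕
    (Fin (M + 1) × Fin (M + 1)))) := fun j => FreeSemigroup.of (Sum.inl j)
  let Z : Fin (M + 1) → FreeSemigroup (Fin (M + 1) ⊕ ((Fin (M + 1) × Fin (M + 1)) ⊕
    (Fin (M + 1) × Fin (M + 1)))) := fun j => p * (C * X j * D) * p
  have hφp : φ p = t 0 := by simp [φ, p, val]
  have hφC : φ C = c k l := by simp [φ, C, val]
  have hφD : φ D = d k l := by simp [φ, D, val]
  have hφX : ∀ j, φ (X j) = t j := by intro j; simp [φ, X, val]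
  have hψZ : ψ (Z l) = ψ (Z k) := by
    simp only [Z, X, map_mul]
    rw [he]
  have hidS : ∀ x : FreeSemigroup (Fin (M + 1) ⊕ ((Fin (M + 1) × Fin (M + 1)) ⊕
      (Fin (M + 1) × Fin (M + 1)))), ψ (pw (p * x * p) (2 * m) * (p * x * p * p)) = ψ p := by
    intro x
    have e1 : pw (p * x * p) (2 * m) * (p * x * p * p) =
        pw (p * x * p) m * (pw (p * x * p) m * p) := by
      rw [← mul_assoc, ← pw_succ, ← mul_assoc, pw_add]
      congr 2
      ring
    rw [e1, map_mul, map_mul, map_pw, map_mul, map_mul, (hS i).left, (hS i).left]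
  have h1 : ψ (pw (Z k) (2 * m) * (Z l * p)) = ψ p := by
    rw [map_mul, map_mul ψ (Z l), hψZ, ← map_mul, ← map_mul]
    exact hidS _
  have h2 := hψ _ h1
  -- compute in T
  set uu := t 0 with huu
  have hφZ : ∀ j, φ (Z j) = uu * (c k l * t j * d k l) * uu := by
    intro j
    simp only [Z, map_mul, hφp, hφC, hφD, hφX]
  have h2' : pw (φ (Z k)) (2 * m) * (φ (Z l) * φ p) = φ p := by
    rw [← map_pw, ← map_mul, ← map_mul]; exact h2
  rw [hφZ, hφZ] at h2'
  set yk := c k l * t k * d k l with hyk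
  set yl := c k l * t l * d k l with hyl
  rw [hφp] at h2'
  -- h2 : pw (uu * yk * uu) (2m) * (uu * yl * uu * uu) = uu
  have hl := hT.left uu yk
  have h3 : uu * yl * uu * uu = uu * yk * uu * uu := by
    have e : pw (uu * yk * uu) (2 * m + 1) * uu = uu := by
      have : pw (uu * yk * uu) (2 * m + 1) = pw (uu * yk * uu) m * pw (uu * yk * uu) m := by
        rw [pw_add]; congr 1; ring
      rw [this, mul_assoc, hl, hl]
    calc uu * yl * uu * uu = pw (uu * yk * uu) (2 * m + 1) * uu * yl * uu * uu := by rw [e]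
      _ = uu * yk * uu * (pw (uu * yk * uu) (2 * m) * (uu * yl * uu * uu)) := by
          rw [pw_succ']; simp only [mul_assoc]
      _ = uu * yk * uu * uu := by rw [h2']
  -- cancel
  obtain ⟨P, hP⟩ := hT.exists_left (c k l) uu
  obtain ⟨Q, hQ⟩ := hT.exists_right (d k l) (uu * uu)
  apply hcd k l hkl
  have h4 : P * (uu * yl * uu * uu) * Q = P * (uu * yk * uu * uu) * Q := by rw [h3]
  have h5 : ∀ s, P * (uu * (c k l * s * d k l) * uu * uu) * Q = c k l * s * d k l := by
    intro s
    calc P * (uu * (c k l * s * d k l) * uu * uu) * Q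
        = (P * (uu * c k l)) * s * (d k l * (uu * uu) * Q) := by simp only [mul_assoc]
      _ = c k l * s * d k l := by rw [hP, hQ]
  rw [hyl, hyk, h5, h5] at h4
  exact h4.symm

end bounded

/-! ### Locality -/

section locality
variable {ι : Type w} {S : ι → Type v} [∀ i, Semigroup (S i)] {T : Type u} [Semigroup T] {m M n : ℕ}

theorem classes_finite (h : ∀ t : Fin (M + 1) → T, ∃ k l, k ≠ l ∧ mid T (t k) (t l)) :
    Finite (Quotient (mid T)) ∧ Nat.card (Quotient (mid T)) ≤ M := by
  have h0 : ∀ f : Fin (M + 1) → Quotient (mid T), ¬ Function.Injective f := by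
    intro f hf
    obtain ⟨k, l, hkl, hm⟩ := h (fun j => (f j).out)
    apply hkl
    apply hf
    rw [← Quotient.out_eq (f k), ← Quotient.out_eq (f l)]
    exact Quotient.sound hm
  have hfin : Finite (Quotient (mid T)) := by
    by_contra hinf
    rw [not_finite_iff_infinite] at hinf
    exact h0 (fun j => Infinite.natEmbedding _ (j : ℕ))
      ((Infinite.natEmbedding _).injective.comp Fin.val_injective)
  refine ⟨hfin, ?_⟩
  by_contra hlt
  push Not at hlt
  exact h0 (fun j => (Finite.equivFin _).symm (Fin.castLE hlt j))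
    ((Finite.equivFin _).symm.injective.comp (Fin.castLE_injective hlt))

/-- Labels of elements relative to `v`. -/
def label (v : T) (t : T) : Quotient (mid T) × Prop × Prop :=
  (Quotient.mk (mid T) t, Rr t v, Ll t v)

theorem good_of_classes (hT : SimpleIds T m) [Finite (Quotient (mid T))]
    (hcard : Nat.card (Quotient (mid T)) ≤ M) (h : GoodOn S (Fin n) T) (hn : 4 * M ≤ n) :
    GoodOn S ℕ T := by
  classical
  intro φ p
  set v := φ p with hv
  let A := Set.range (label v)
  have hAfin : Finite A := by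
    have : Finite (Quotient (mid T) × Prop × Prop) := inferInstance
    infer_instance
  have hAcard : Nat.card A ≤ n := by
    calc Nat.card A ≤ Nat.card (Quotient (mid T) × Prop × Prop) :=
          Nat.card_le_card_of_injective _ Subtype.val_injective
      _ = Nat.card (Quotient (mid T)) * 4 := by
          rw [Nat.card_prod, Nat.card_prod]; simp
      _ ≤ n := by omega
  have hgood : GoodOn S A T := h.of_card hAcard
  let f : ℕ → A := fun j => ⟨label v (φ (FreeSemigroup.of j)), _, rfl⟩
  let r : A → T := fun a => Classical.choose a.2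
  have hr : ∀ a : A, label v (r a) = a := fun a => Classical.choose_spec a.2
  let φ' : FreeSemigroup A →ₙ* T := FreeSemigroup.lift r
  obtain ⟨i, ψ, hψ⟩ := hgood φ' (FreeSemigroup.map f p)
  refine ⟨i, FreeSemigroup.lift (fun a => ψ (FreeSemigroup.of (f a))), fun q hq => ?_⟩
  rw [← comp_map_eq, ← comp_map_eq] at hq
  have hq' := hψ _ hq
  -- comparison of `φ' ∘ map f` with `φ`
  have hlab : ∀ j, label v (r (f j)) = label v (φ (FreeSemigroup.of j)) := fun j => hr (f j)
  have hmid : ∀ s, mid T (φ' (FreeSemigroup.map f s)) (φ s) := by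
    intro s
    induction s using FreeSemigroup.recOnMul with
    | ih1 x =>
      have := congrArg Prod.fst (hlab x)
      simp only [label] at this
      simpa [φ'] using Quotient.exact this
    | ih2 x y hx hy =>
      rw [map_mul, map_mul, map_mul]
      exact mid_mul hx hy
  have hR : ∀ s, Rr (φ' (FreeSemigroup.map f s)) v ↔ Rr (φ s) v := by
    intro s
    induction s using FreeSemigroup.recOnMul with
    | ih1 x =>
      have := congrArg (fun z => z.2.1) (hlab x)
      simp only [label] at this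
      simpa [φ'] using iff_of_eq this
    | ih2 x y hx hy =>
      rw [map_mul, map_mul, map_mul, hT.rr_mul, hT.rr_mul, hx]
  have hL : ∀ s, Ll (φ' (FreeSemigroup.map f s)) v ↔ Ll (φ s) v := by
    intro s
    induction s using FreeSemigroup.recOnMul with
    | ih1 x =>
      have := congrArg (fun z => z.2.2) (hlab x)
      simp only [label] at this
      simpa [φ'] using iff_of_eq this
    | ih2 x y hx hy =>
      rw [map_mul, map_mul, map_mul, hT.ll_mul, hT.ll_mul, hy]
  have hu : φ' (FreeSemigroup.map f p) = v :=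
    hT.eq_of (hmid p) ((hR p).2 (hT.rr_refl _)) ((hL p).2 (hT.ll_refl _))
  rw [hu] at hq'
  have h1 := hmid q
  have h2 := (hR q).1 (hq' ▸ hT.rr_refl _)
  have h3 := (hL q).1 (hq' ▸ hT.ll_refl _)
  rw [hq'] at h1
  exact hT.eq_of ((mid T).symm h1) h2 h3

end locality

/-- Every finite family of finite simple semigroups generates a finitely axiomatisable inclusive
variety. -/
theorem simple_finite_axiomatisable {ι : Type w} (S : ι → Type v) [∀ i, Semigroup (S i)] [Finite ι]
    [∀ i, Finite (S i)] (hS : ∀ i, ∀ a b : S i, ∃ x y : S i, x * a * y = b) :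
    ∃ B : Set (Word × Finset Word), B.Finite ∧ ∀ (T : Type u) [Semigroup T],
      InGenerated S T ↔ ∀ b ∈ B, Satisfies T b.1 (b.2 : Set Word) := by
  obtain ⟨m, hm⟩ := exists_uniform_idem S
  have hSm : ∀ i, SimpleIds (S i) m := fun i =>
    ⟨simple_id_left (hm i) (hS i), simple_id_right (hm i) (hS i)⟩
  have := Fintype.ofFinite ι
  obtain ⟨M, hM⟩ : ∃ M, ∀ i, Nat.card (S i) ≤ M :=
    ⟨Finset.univ.sup fun i => Nat.card (S i), fun i =>
      Finset.le_sup (f := fun i => Nat.card (S i)) (Finset.mem_univ i)⟩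
  let W := Fin (M + 1) ⊕ ((Fin (M + 1) × Fin (M + 1)) ⊕ (Fin (M + 1) × Fin (M + 1)))
  let n := 2 + 4 * M + Nat.card W
  refine finite_axiomatisable_of_local S n (by omega) fun T _ h => ?_
  have h2 : GoodOn S (Fin 2) T := h.of_card (by simp [n]; omega)
  have hT : SimpleIds T m := SimpleIds.of_good h2 hSm
  have hW : GoodOn S W T := h.of_card (by simp [n])
  obtain ⟨hf, hc⟩ := classes_finite fun t => not_many_classes hSm hM hT hW t
  exact good_of_classes hT hc h (by omega)

end Pool.Agent.Lib.MP_226ef1_lc
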